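import Mathlib
import Pool.Agent.Q46.RingB

/-!
# Approximate covering of a ring without common orientation under SSYNC (answer to Q1: yes)

The ring is `AddCircle L`, the sensors are indexed by `ZMod n` (the sensors do not know the
indices), `x t i` is the position of sensor `i` at time `t`.  A sensor sees the set of the positions
of the sensors within distance `V` in its own coordinate, whose positive direction is given by the
sign `o t i` (arbitrary, it may even change with time).  The algorithm is one function from snapshots
to destinations in the own coordinate; it is the same for all sensors, all `ε`, all `n` and all `L`.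
-/

namespace Pool.Agent.Results.MP_5c423c_lc.CoveringWithoutOrientation

/-- the clockwise distance from `x` to `y` on the circle of length `L`: the representative of
`y - x` in `[0, L)` -/
noncomputable def cw {L : ℝ} [Fact (0 < L)] (x y : AddCircle L) : ℝ :=
  (AddCircle.equivIco L 0 (y - x) : ℝ)

/-- the points are distinct and `x (i + 1)` follows `x i` clockwise (going once around the circle) -/
def CyclicOrder {L : ℝ} [Fact (0 < L)] {n : ℕ} [NeZero n] (x : ZMod n → AddCircle L) : Prop :=
  Function.Injective x ∧ ∑ i, cw (x i) (x (i + 1)) = L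

/-- the snapshot of sensor `i`, in its own coordinate centred at its position and with orientation
`o`: all coordinates `r` with `|r| ≤ V` at which there is a sensor -/
def snapshot {L : ℝ} {n : ℕ} (V : ℝ) (x : ZMod n → AddCircle L) (o : ℤˣ) (i : ZMod n) : Set ℝ :=
  {r : ℝ | |r| ≤ V ∧ ∃ j, x j = x i + ((((o : ℤ) : ℝ) * r : ℝ) : AddCircle L)}

/-- executions of the algorithm `alg` under the SSYNC scheduler: `act t` is the nonempty set of
sensors which are active at time `t`, every sensor is active infinitely often, inactive sensors do
not move; an active sensor moves towards its destination `alg (snapshot …)`, possibly stopping early,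
but then it covers at least the distance `δ`. -/
structure IsExecution {L : ℝ} {n : ℕ} (V δ : ℝ) (alg : Set ℝ → ℝ) (o : ℕ → ZMod n → ℤˣ)
    (act : ℕ → Set (ZMod n)) (x : ℕ → ZMod n → AddCircle L) : Prop where
  nonempty : ∀ t, (act t).Nonempty
  fair : ∀ i T, ∃ t, T ≤ t ∧ i ∈ act t
  idle : ∀ t i, i ∉ act t → x (t + 1) i = x t i
  move : ∀ t i, i ∈ act t → ∃ s : ℝ, 0 ≤ s ∧ s ≤ 1 ∧
    min δ |alg (snapshot V (x t) (o t i) i)| ≤ s * |alg (snapshot V (x t) (o t i) i)| ∧
    x (t + 1) i = x t i +
      ((((o t i : ℤ) : ℝ) * (s * alg (snapshot V (x t) (o t i) i)) : ℝ) : AddCircle L)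

/-- For every visibility range `V` there is one algorithm which, for all `L`, `n ≥ 2` with
`2 L / n ≤ V`, all orientations of the sensors, all initial configurations and all fair SSYNC
schedules (with non-rigid moves), keeps the sensors distinct and in cyclic order and makes all
distances `d_i(t)` converge to `d = L / n`. -/
theorem result (V : ℝ) (hV : 0 < V) : ∃ alg : Set ℝ → ℝ,
    ∀ (L : ℝ) [Fact (0 < L)] (n : ℕ) [NeZero n], 2 ≤ n → 2 * (L / n) ≤ V →
    ∀ (δ : ℝ), 0 < δ → ∀ (o : ℕ → ZMod n → ℤˣ) (act : ℕ → Set (ZMod n))
      (x : ℕ → ZMod n → AddCircle L), IsExecution V δ alg o act x → CyclicOrder (x 0) →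
      (∀ t, CyclicOrder (x t)) ∧
      ∀ ε : ℝ, 0 < ε → ∃ T, ∀ t, T ≤ t → ∀ i, |cw (x t i) (x t (i + 1)) - L / n| ≤ ε := by
  refine ⟨Q46.Ring.balance V, ?_⟩
  intro L _ n _ hn hd δ hδ o act x hex h0
  exact Q46.Ring.execution V δ hV hδ hn hd o act x hex.fair hex.idle hex.move h0.1 h0.2

end Pool.Agent.Results.MP_5c423c_lc.CoveringWithoutOrientation
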